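import Pool.Agent.Helper95.AG.Defs

/-! # Project AG (MP_9ee088_an), block LY: the base step, real form (from `m1` .. `m4`) -/

set_option autoImplicit false
open MeasureTheory Real Set Filter Topology
open scoped ENNReal

namespace Pool.Agent.Helper38.AG

open Pool.Agent.Helper95.AF (ip un)
open Pool.Agent.Helper95.AG

theorem ip_meas {f : ℝ → ℝ} (hf : Measurable f) (q : ℝ) : Measurable fun t => ip q (f t) := by
  unfold ip
  exact (ENNReal.measurable_ofReal.comp hf).pow_const _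

theorem ip_anti {q x y : ℝ} (hq : 0 ≤ q) (h : x ≤ y) : ip q y ≤ ip q x := by
  unfold ip
  rw [ENNReal.rpow_neg, ENNReal.rpow_neg]
  exact ENNReal.inv_le_inv.2 (ENNReal.rpow_le_rpow (ENNReal.ofReal_le_ofReal h) hq)

theorem ip_pos {q x : ℝ} (hx : 0 < x) : ip q x = ENNReal.ofReal (x ^ (-q)) := by
  unfold ip
  rw [ENNReal.ofReal_rpow_of_pos hx]

theorem ip_sq (q x : ℝ) : ip q x ^ (2:ℝ) = ip (2 * q) x := by
  unfold ip
  rw [← ENNReal.rpow_mul]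
  congr 1
  ring

theorem half {C z : ℝ} (hC : 1 ≤ C) (hz : 0 < z) (r : ℝ) :
    ENNReal.ofReal (C * z ^ (-(2 * r))) ^ (1 / 2 : ℝ) ≤ ENNReal.ofReal (C * z ^ (-r)) := by
  have h0 : 0 < z ^ (-(2 * r)) := Real.rpow_pos_of_pos hz _
  rw [ENNReal.ofReal_rpow_of_pos (by positivity)]
  refine ENNReal.ofReal_le_ofReal ?_
  rw [Real.mul_rpow (by linarith) h0.le, ← Real.rpow_mul hz.le]
  have e : -(2 * r) * (1 / 2) = -r := by ring
  rw [e]
  refine mul_le_mul_of_nonneg_right ?_ (Real.rpow_pos_of_pos hz _).le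
  calc C ^ (1 / 2 : ℝ) ≤ C ^ (1 : ℝ) := Real.rpow_le_rpow_of_exponent_le hC (by norm_num)
    _ = C := Real.rpow_one C

/-- Cauchy-Schwarz -/
theorem cs {D G : ℝ → ℝ} (hD : Measurable D) (hG : Measurable G) {q C1 C3 B m s : ℝ} (hC1 : 1 ≤ C1) (hC3 : 1 ≤ C3)
    (hB : 0 < B) (hm : 0 < m) (hs : 0 ≤ s)
    (h1 : ∫⁻ t, ip (2 * q) |D t| ∂un ≤ ENNReal.ofReal (C1 * B ^ (-(2 * q))))
    (h3 : ∫⁻ t, ip (1 / 8) |G t| ∂un ≤ ENNReal.ofReal (C3 * m ^ (-(1 / 8 : ℝ)))) :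
    ∫⁻ t, ip q |D t| * ip (1 / 16) (|G t| + s) ∂un ≤ ENNReal.ofReal (C1 * C3 * (B ^ (-q) * m ^ (-(1 / 16 : ℝ)))) := by
  have hf : Measurable fun t => ip q |D t| := ip_meas hD.abs q
  have hg : Measurable fun t => ip (1 / 16) (|G t| + s) := ip_meas (hG.abs.add_const s) _
  have hcs := ENNReal.lintegral_mul_le_Lp_mul_Lq un Real.HolderConjugate.two_two hf.aemeasurable hg.aemeasurable
  have e0 : ∫⁻ t, ip q |D t| * ip (1 / 16) (|G t| + s) ∂un =
      ∫⁻ t, ((fun t => ip q |D t|) * fun t => ip (1 / 16) (|G t| + s)) t ∂un := rfl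
  rw [e0]
  refine hcs.trans ?_
  have a1 : (∫⁻ t, ip q |D t| ^ (2:ℝ) ∂un) ^ (1 / 2 : ℝ) ≤ ENNReal.ofReal (C1 * B ^ (-q)) := by
    simp only [ip_sq]
    exact (ENNReal.rpow_le_rpow h1 (by norm_num)).trans (half hC1 hB q)
  have a2 : (∫⁻ t, ip (1 / 16) (|G t| + s) ^ (2:ℝ) ∂un) ^ (1 / 2 : ℝ) ≤ ENNReal.ofReal (C3 * m ^ (-(1 / 16 : ℝ))) := by
    simp only [ip_sq]
    have e1 : (2:ℝ) * (1 / 16) = 1 / 8 := by norm_num
    rw [e1]
    have h4 : ∫⁻ t, ip (1 / 8) (|G t| + s) ∂un ≤ ENNReal.ofReal (C3 * m ^ (-(2 * (1 / 16 : ℝ)))) := by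
      rw [e1]
      exact (lintegral_mono fun t => ip_anti (by norm_num) (by linarith)).trans h3
    exact (ENNReal.rpow_le_rpow h4 (by norm_num)).trans (half hC3 hm (1 / 16))
  refine (mul_le_mul' a1 a2).trans (le_of_eq ?_)
  have := Real.rpow_pos_of_pos hB (-q)
  rw [← ENNReal.ofReal_mul (by positivity)]
  congr 1
  ring

/-- the new value -/
theorem lyr_new {ε s E D x : ℝ} (hε : 0 < ε) (hE : E ≠ 0) :
    lyr ε s (E * D) E x ≤ ip (ε / 16) |E| *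
      ((ip (ε / 16) |D| + ip ((1 + ε) / 16) |D|) * ip (1 / 16) (|Real.cos (2 * π * x)| + s)) := by
  unfold lyr
  rw [← mul_assoc]
  refine mul_le_mul' ?_ le_rfl
  have he : 0 < |E| := abs_pos.2 hE
  have he0 : ENNReal.ofReal |E| ≠ 0 := (ENNReal.ofReal_pos.2 he).ne'
  have e1 : max |E * D| |E| = |E| * max |D| 1 := by
    rw [abs_mul, mul_max_of_nonneg _ _ he.le, mul_one]
  rw [e1, abs_mul]
  unfold ip
  rw [ENNReal.ofReal_mul he.le, ENNReal.ofReal_mul he.le,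
    ENNReal.mul_rpow_of_ne_top ENNReal.ofReal_ne_top ENNReal.ofReal_ne_top,
    ENNReal.mul_rpow_of_ne_top ENNReal.ofReal_ne_top ENNReal.ofReal_ne_top]
  have e2 : ENNReal.ofReal |E| ^ (-(ε / 16)) =
      ENNReal.ofReal |E| ^ (-((1 + ε) / 16)) * ENNReal.ofReal |E| ^ (1 / 16 : ℝ) := by
    rw [← ENNReal.rpow_add _ _ he0 ENNReal.ofReal_ne_top]
    congr 1
    ring
  rw [e2]
  have hmax : ENNReal.ofReal (max |D| 1) ^ (1 / 16 : ℝ) ≤ ENNReal.ofReal |D| ^ (1 / 16 : ℝ) + 1 := by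
    rcases le_total |D| 1 with h | h
    · rw [max_eq_right h, ENNReal.ofReal_one, ENNReal.one_rpow]
      exact le_add_self
    · rw [max_eq_left h]
      exact le_self_add
  have e3 : ENNReal.ofReal |D| ^ (-((1 + ε) / 16)) * ENNReal.ofReal (max |D| 1) ^ (1 / 16 : ℝ) ≤
      ENNReal.ofReal |D| ^ (-(ε / 16)) + ENNReal.ofReal |D| ^ (-((1 + ε) / 16)) := by
    rcases eq_or_ne D 0 with h | h
    · rw [h, abs_zero, ENNReal.ofReal_zero, ENNReal.zero_rpow_of_neg (by linarith : -(ε / 16) < 0)]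
      simp
    · have hd : 0 < |D| := abs_pos.2 h
      have hd0 : ENNReal.ofReal |D| ≠ 0 := (ENNReal.ofReal_pos.2 hd).ne'
      have e4 : ENNReal.ofReal |D| ^ (-(ε / 16)) =
          ENNReal.ofReal |D| ^ (-((1 + ε) / 16)) * ENNReal.ofReal |D| ^ (1 / 16 : ℝ) := by
        rw [← ENNReal.rpow_add _ _ hd0 ENNReal.ofReal_ne_top]
        congr 1
        ring
      rw [e4]
      refine (mul_le_mul_right hmax _).trans (le_of_eq ?_)
      rw [mul_add, mul_one]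
  calc ENNReal.ofReal |E| ^ (-((1 + ε) / 16)) * ENNReal.ofReal |D| ^ (-((1 + ε) / 16)) *
        (ENNReal.ofReal |E| ^ (1 / 16 : ℝ) * ENNReal.ofReal (max |D| 1) ^ (1 / 16 : ℝ)) =
        ENNReal.ofReal |E| ^ (-((1 + ε) / 16)) * ENNReal.ofReal |E| ^ (1 / 16 : ℝ) *
        (ENNReal.ofReal |D| ^ (-((1 + ε) / 16)) * ENNReal.ofReal (max |D| 1) ^ (1 / 16 : ℝ)) := by ring
    _ ≤ _ := mul_le_mul_right e3 _

/-- the old value -/
theorem lyr_old {ε s E c x : ℝ} (hE : E ≠ 0) :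
    lyr ε s E (E * c) x = ip (ε / 16) |E| *
      (ENNReal.ofReal (max 1 |c| ^ (1 / 16 : ℝ)) * ip (1 / 16) (|Real.cos (2 * π * x)| + s)) := by
  unfold lyr
  rw [← mul_assoc]
  congr 1
  have he : 0 < |E| := abs_pos.2 hE
  have he0 : ENNReal.ofReal |E| ≠ 0 := (ENNReal.ofReal_pos.2 he).ne'
  have e1 : max |E| |E * c| = |E| * max 1 |c| := by
    rw [abs_mul, mul_max_of_nonneg _ _ he.le, mul_one]
  have h1 : 0 < max 1 |c| := lt_of_lt_of_le one_pos (le_max_left _ _)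
  rw [e1]
  unfold ip
  rw [ENNReal.ofReal_mul he.le, ENNReal.mul_rpow_of_ne_top ENNReal.ofReal_ne_top ENNReal.ofReal_ne_top,
    ← ENNReal.ofReal_rpow_of_pos h1, ← mul_assoc, ← ENNReal.rpow_add _ _ he0 ENNReal.ofReal_ne_top]
  congr 2
  ring

/-- both terms -/
theorem pair {D G : ℝ → ℝ} (hD : Measurable D) (hG : Measurable G) {ε C1 C3 B m s : ℝ} (hC1 : 1 ≤ C1) (hC3 : 1 ≤ C3)
    (hB : 0 < B) (hm : 0 < m) (hs : 0 ≤ s)
    (h1 : ∫⁻ t, ip (2 * (ε / 16)) |D t| ∂un ≤ ENNReal.ofReal (C1 * B ^ (-(2 * (ε / 16)))))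
    (h2 : ∫⁻ t, ip (2 * ((1 + ε) / 16)) |D t| ∂un ≤ ENNReal.ofReal (C1 * B ^ (-(2 * ((1 + ε) / 16)))))
    (h3 : ∫⁻ t, ip (1 / 8) |G t| ∂un ≤ ENNReal.ofReal (C3 * m ^ (-(1 / 8 : ℝ)))) :
    ∫⁻ t, (ip (ε / 16) |D t| + ip ((1 + ε) / 16) |D t|) * ip (1 / 16) (|G t| + s) ∂un ≤
      ENNReal.ofReal (C1 * C3 * ((B ^ (-(ε / 16)) + B ^ (-((1 + ε) / 16))) * m ^ (-(1 / 16 : ℝ)))) := by
  have a1 := cs hD hG hC1 hC3 hB hm hs h1 h3
  have a2 := cs hD hG hC1 hC3 hB hm hs h2 h3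
  simp only [add_mul]
  have hm1 : Measurable fun t => ip (ε / 16) |D t| * ip (1 / 16) (|G t| + s) :=
    (ip_meas hD.abs _).mul (ip_meas (hG.abs.add_const s) _)
  rw [lintegral_add_left hm1]
  refine (add_le_add a1 a2).trans (le_of_eq ?_)
  have := Real.rpow_pos_of_pos hB (-(ε / 16))
  have := Real.rpow_pos_of_pos hB (-((1 + ε) / 16))
  have := Real.rpow_pos_of_pos hm (-(1 / 16 : ℝ))
  rw [← ENNReal.ofReal_add (by positivity) (by positivity)]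
  congr 1
  ring

section real

variable {ε A s κ : ℝ}

theorem As_eq (hA : 1 ≤ A) (hs : s = A ^ (ε - 1)) : A * s = A ^ ε := by
  have hA0 : 0 < A := by linarith
  rw [hs, Real.rpow_sub_one hA0.ne']
  field_simp

theorem one_le_As (hε : 0 < ε) (hA : 1 ≤ A) (hs : s = A ^ (ε - 1)) : 1 ≤ A * s := by
  rw [As_eq hA hs]
  exact Real.one_le_rpow hA hε.le

theorem r1 (hε : 0 < ε) (hA : 1 ≤ A) (hs : s = A ^ (ε - 1)) (hκ : 0 < κ) (hκ2 : κ ≤ 2) :
    (min 1 (A * s * κ)) ^ (-(1 / 16 : ℝ)) ≤ 2 * κ ^ (-(1 / 16 : ℝ)) := by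
  have h1 := one_le_As hε hA hs
  have h2 : κ / 2 ≤ min 1 (A * s * κ) := le_min (by linarith) (by nlinarith)
  refine (Real.rpow_le_rpow_of_nonpos (by positivity) h2 (by norm_num)).trans ?_
  rw [div_eq_mul_inv, Real.mul_rpow hκ.le (by norm_num), mul_comm]
  refine mul_le_mul_of_nonneg_right ?_ (Real.rpow_pos_of_pos hκ _).le
  rw [Real.inv_rpow (by norm_num), ← Real.rpow_neg (by norm_num), neg_neg]
  calc (2:ℝ) ^ (1 / 16 : ℝ) ≤ 2 ^ (1 : ℝ) := Real.rpow_le_rpow_of_exponent_le (by norm_num) (by norm_num)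
    _ = 2 := Real.rpow_one 2

theorem r2 (hε : 0 < ε) (hε1 : ε ≤ 1 / 2) (hA : 1 ≤ A) (hs : s = A ^ (ε - 1)) (hκ : s ≤ κ) (hκ2 : κ ≤ 2) :
    κ ^ (-(ε / 16)) * (min 1 (A * s * κ)) ^ (-(1 / 16 : ℝ)) ≤ 2 * κ ^ (-(1 / 16 : ℝ)) := by
  have hA0 : 0 < A := by linarith
  have hs0 : 0 < s := by rw [hs]; exact Real.rpow_pos_of_pos hA0 _
  have hκ0 : 0 < κ := by linarith
  have hp0 : 0 < κ ^ (1 - ε) := Real.rpow_pos_of_pos hκ0 _
  have h1 : κ ^ (1 - ε) / 2 ≤ min 1 (A * s * κ) := by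
    refine le_min ?_ ?_
    · have h2 : κ ^ (1 - ε) ≤ 2 := by
        calc κ ^ (1 - ε) ≤ 2 ^ (1 - ε) := Real.rpow_le_rpow hκ0.le hκ2 (by linarith)
          _ ≤ 2 ^ (1:ℝ) := Real.rpow_le_rpow_of_exponent_le (by norm_num) (by linarith)
          _ = 2 := Real.rpow_one 2
      linarith
    · have h3 : κ ^ (1 - ε) = κ * κ ^ (-ε) := by
        rw [sub_eq_add_neg, Real.rpow_add hκ0, Real.rpow_one]
      have h4 : κ ^ (-ε) ≤ A * s := by
        calc κ ^ (-ε) ≤ s ^ (-ε) := Real.rpow_le_rpow_of_nonpos hs0 hκ (by linarith)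
          _ = A ^ ((ε - 1) * (-ε)) := by rw [hs, ← Real.rpow_mul hA0.le]
          _ ≤ A ^ ε := Real.rpow_le_rpow_of_exponent_le hA (by nlinarith)
          _ = A * s := (As_eq hA hs).symm
      rw [h3]
      have h5 : κ * κ ^ (-ε) ≤ κ * (A * s) := mul_le_mul_of_nonneg_left h4 hκ0.le
      have h6 : 0 ≤ κ * κ ^ (-ε) := by positivity
      linarith
  have h7 : (min 1 (A * s * κ)) ^ (-(1 / 16 : ℝ)) ≤ 2 * κ ^ (-((1 - ε) / 16)) := by
    refine (Real.rpow_le_rpow_of_nonpos (by positivity) h1 (by norm_num)).trans ?_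
    rw [div_eq_mul_inv, Real.mul_rpow hp0.le (by norm_num), mul_comm, ← Real.rpow_mul hκ0.le]
    have e : (1 - ε) * (-(1 / 16)) = -((1 - ε) / 16) := by ring
    rw [e]
    refine mul_le_mul_of_nonneg_right ?_ (Real.rpow_pos_of_pos hκ0 _).le
    rw [Real.inv_rpow (by norm_num), ← Real.rpow_neg (by norm_num), neg_neg]
    calc (2:ℝ) ^ (1 / 16 : ℝ) ≤ 2 ^ (1 : ℝ) := Real.rpow_le_rpow_of_exponent_le (by norm_num) (by norm_num)
      _ = 2 := Real.rpow_one 2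
  calc κ ^ (-(ε / 16)) * (min 1 (A * s * κ)) ^ (-(1 / 16 : ℝ)) ≤ κ ^ (-(ε / 16)) * (2 * κ ^ (-((1 - ε) / 16))) :=
        mul_le_mul_of_nonneg_left h7 (Real.rpow_pos_of_pos hκ0 _).le
    _ = 2 * (κ ^ (-(ε / 16)) * κ ^ (-((1 - ε) / 16))) := by ring
    _ = 2 * κ ^ (-(1 / 16 : ℝ)) := by
        rw [← Real.rpow_add hκ0]
        congr 2
        ring

/-- powers of a number `≥ 1` -/
theorem two_pow_le {B : ℝ} (hB : 1 ≤ B) : B ^ (-(ε / 16)) + B ^ (-((1 + ε) / 16)) ≤ 2 * B ^ (-(ε / 16)) := by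
  have : B ^ (-((1 + ε) / 16)) ≤ B ^ (-(ε / 16)) := Real.rpow_le_rpow_of_exponent_le hB (by linarith)
  linarith

theorem two_pow_le' {B : ℝ} (hB0 : 0 < B) (hB : B ≤ 1) : B ^ (-(ε / 16)) + B ^ (-((1 + ε) / 16)) ≤ 2 * B ^ (-((1 + ε) / 16)) := by
  have : B ^ (-(ε / 16)) ≤ B ^ (-((1 + ε) / 16)) := Real.rpow_le_rpow_of_exponent_ge hB0 hB (by linarith)
  linarith

end real

/-- from the integral to the bound: three numbers -/
theorem fin_le {J : ℝ≥0∞} {x y : ℝ} (h : J ≤ ENNReal.ofReal x) (hxy : x ≤ y) : J ≤ ENNReal.ofReal y :=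
  h.trans (ENNReal.ofReal_le_ofReal hxy)

/-- the integral -/
theorem key
    (m1 : ∃ C : ℝ, 1 ≤ C ∧ ∀ a s y c q : ℝ, 100 ≤ |a| → 0 < s → s ≤ 1 → 0 < q → q ≤ 1 / 4 → |c| ≤ |a| →
      ∫⁻ t, ip q |2 + 2 * π * a * Real.cos (2 * π * (y + s * t)) - c| ∂un ≤ ENNReal.ofReal (C * (|a| * s) ^ (-q)))
    (m2 : ∃ C : ℝ, 1 ≤ C ∧ ∀ a s y c q : ℝ, 100 ≤ |a| → 0 < s → s ≤ 1 → 0 < q → q ≤ 1 / 4 →
      ∫⁻ t, ip q |2 + 2 * π * a * Real.cos (2 * π * (y + s * t)) - c| ∂un ≤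
        ENNReal.ofReal (C * (|a| * s ^ 2) ^ (-q)))
    (m3 : ∃ C : ℝ, 1 ≤ C ∧ ∀ a s y b q : ℝ, 1000000 ≤ |a| → 0 < s → s ≤ 1 / 1000 → 1000 ≤ |a| * s → |a| * s ^ 2 ≤ 1 →
      0 < q → q ≤ 1 / 4 →
      ∫⁻ t, ip q |Real.cos (2 * π * (2 * (y + s * t) + a * Real.sin (2 * π * (y + s * t)) + b))| ∂un ≤
        ENNReal.ofReal (C * (min 1 (|a| * s * (|Real.cos (2 * π * y)| + s))) ^ (-q)))
    (m4 : ∀ {a s y c x : ℝ}, 1000000 ≤ |a| → 0 < s → s ≤ 1 / 1000 → 1000 ≤ |a| * s →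
      20 * s ≤ |Real.cos (2 * π * y)| → |c| ≤ |a| * s → |x - y| ≤ s →
      |a| * (|Real.cos (2 * π * y)| + s) ≤ |2 + 2 * π * a * Real.cos (2 * π * x) - c|)
    {ε : ℝ} (hε : 0 < ε) (hε1 : ε ≤ 1 / 2) : ∃ C A₀ : ℝ, 1 ≤ C ∧ 1 ≤ A₀ ∧ ∀ a s y b c : ℝ, A₀ ≤ |a| →
    s = |a| ^ (ε - 1) →
    ∫⁻ t, (ip (ε / 16) |2 + 2 * π * a * Real.cos (2 * π * (y + s * t)) - c| +
        ip ((1 + ε) / 16) |2 + 2 * π * a * Real.cos (2 * π * (y + s * t)) - c|) *
        ip (1 / 16) (|Real.cos (2 * π * (2 * (y + s * t) + a * Real.sin (2 * π * (y + s * t)) + b))| + s) ∂un ≤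
      ENNReal.ofReal (C * (|a| ^ (-(ε / 16)) * (max 1 |c| ^ (1 / 16 : ℝ) *
        (|Real.cos (2 * π * y)| + s) ^ (-(1 / 16 : ℝ))))) := by
  obtain ⟨C1, hC1, h1⟩ := m1
  obtain ⟨C2, hC2, h2⟩ := m2
  obtain ⟨C3, hC3, h3⟩ := m3
  refine ⟨84 * (C1 * C2 * C3), max 1000000 (1000 ^ (1 / ε)), ?_, le_trans (by norm_num) (le_max_left _ _), ?_⟩
  · have : 1 ≤ C1 * C2 * C3 := one_le_mul_of_one_le_of_one_le (one_le_mul_of_one_le_of_one_le hC1 hC2) hC3
    linarith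
  intro a s y b c hA₀ hs
  obtain ⟨A, hA⟩ : ∃ A, A = |a| := ⟨_, rfl⟩
  rw [← hA] at hA₀ hs ⊢
  have hA6 : 1000000 ≤ A := (le_max_left _ _).trans hA₀
  have hA1 : 1 ≤ A := by linarith
  have hA0 : 0 < A := by linarith
  have hs0 : 0 < s := by rw [hs]; exact Real.rpow_pos_of_pos hA0 _
  have hAs := As_eq hA1 hs
  have hAs1000 : 1000 ≤ A * s := by
    rw [hAs]
    have h : (1000 ^ (1 / ε) : ℝ) ^ ε ≤ A ^ ε :=
      Real.rpow_le_rpow (by positivity) ((le_max_right _ _).trans hA₀) hε.le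
    rw [← Real.rpow_mul (by norm_num), one_div, inv_mul_cancel₀ hε.ne', Real.rpow_one] at h
    exact h
  have hs1 : s ≤ 1 / 1000 := by
    rw [hs]
    calc A ^ (ε - 1) ≤ A ^ (-(1 / 2) : ℝ) := Real.rpow_le_rpow_of_exponent_le hA1 (by linarith)
      _ ≤ (1000000:ℝ) ^ (-(1 / 2) : ℝ) := Real.rpow_le_rpow_of_nonpos (by norm_num) hA6 (by norm_num)
      _ = 1 / 1000 := by
          rw [Real.rpow_neg (by norm_num), ← Real.sqrt_eq_rpow, show (1000000:ℝ) = 1000 ^ 2 by norm_num,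
            Real.sqrt_sq (by norm_num), one_div]
  have hs1' : s ≤ 1 := by linarith
  have hB2 : A * s ^ 2 = A ^ (2 * ε - 1) := by
    rw [sq, ← mul_assoc, hAs, hs, ← Real.rpow_add hA0]
    congr 1
    ring
  have hB2le : A * s ^ 2 ≤ 1 := by
    rw [hB2]
    calc A ^ (2 * ε - 1) ≤ A ^ (0:ℝ) := Real.rpow_le_rpow_of_exponent_le hA1 (by linarith)
      _ = 1 := Real.rpow_zero A
  obtain ⟨κ, hκ⟩ : ∃ κ, κ = |Real.cos (2 * π * y)| + s := ⟨_, rfl⟩
  have hκs : s ≤ κ := by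
    rw [hκ]
    linarith [abs_nonneg (Real.cos (2 * π * y))]
  have hκ0 : 0 < κ := by linarith
  have hκ2 : κ ≤ 2 := by
    rw [hκ]
    linarith [Real.abs_cos_le_one (2 * π * y)]
  rw [← hκ]
  have hm0 : 0 < min 1 (A * s * κ) := lt_min one_pos (by positivity)
  have hm := r1 hε hA1 hs hκ0 hκ2
  have hm' := r2 hε hε1 hA1 hs hκs hκ2
  obtain ⟨m, hmd⟩ : ∃ m, m = min 1 (A * s * κ) := ⟨_, rfl⟩
  rw [← hmd] at hm0 hm hm'
  have hG3 : ∀ q : ℝ, 0 < q → q ≤ 1 / 4 →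
      ∫⁻ t, ip q |Real.cos (2 * π * (2 * (y + s * t) + a * Real.sin (2 * π * (y + s * t)) + b))| ∂un ≤
        ENNReal.ofReal (C3 * m ^ (-q)) := by
    intro q hq hq1
    rw [hmd, hκ, hA]
    exact h3 a s y b q (hA ▸ hA6) hs0 hs1 (hA ▸ hAs1000) (hA ▸ hB2le) hq hq1
  have hDm : Measurable fun t : ℝ => 2 + 2 * π * a * Real.cos (2 * π * (y + s * t)) - c := by fun_prop
  have hGm : Measurable fun t : ℝ => Real.cos (2 * π * (2 * (y + s * t) + a * Real.sin (2 * π * (y + s * t)) + b)) := by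
    fun_prop
  have hcm : 0 < max 1 |c| := lt_of_lt_of_le one_pos (le_max_left _ _)
  have hc1 : 1 ≤ max 1 |c| ^ (1 / 16 : ℝ) := Real.one_le_rpow (le_max_left _ _) (by norm_num)
  have hκp : 0 < κ ^ (-(1 / 16 : ℝ)) := Real.rpow_pos_of_pos hκ0 _
  have hAp : 0 < A ^ (-(ε / 16)) := Real.rpow_pos_of_pos hA0 _
  have hmp : 0 < m ^ (-(1 / 16 : ℝ)) := Real.rpow_pos_of_pos hm0 _
  have hC12 : 0 < C1 * C3 := by positivity
  have hCC : 1 ≤ C1 * C2 * C3 := one_le_mul_of_one_le_of_one_le (one_le_mul_of_one_le_of_one_le hC1 hC2) hC3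
  have hCa : C1 * C3 ≤ C1 * C2 * C3 := by nlinarith [mul_nonneg (by linarith : 0 ≤ C1) (by linarith : 0 ≤ C3)]
  have hCb : C2 * C3 ≤ C1 * C2 * C3 := by nlinarith [mul_nonneg (by linarith : 0 ≤ C2) (by linarith : 0 ≤ C3)]
  have hCc : C3 ≤ C1 * C2 * C3 := by
    have : 1 ≤ C1 * C2 := one_le_mul_of_one_le_of_one_le hC1 hC2
    nlinarith
  have hq1 : 0 < 2 * (ε / 16) := by positivity
  have hq1' : 2 * (ε / 16) ≤ 1 / 4 := by linarith
  have hq2 : 0 < 2 * ((1 + ε) / 16) := by positivity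
  have hq2' : 2 * ((1 + ε) / 16) ≤ 1 / 4 := by linarith
  have hAs0 : 0 < A * s := by positivity
  have hAs1 : 1 ≤ A * s := by linarith
  rcases le_or_gt |c| A with hcA | hcA
  · -- `|c| ≤ |a|`
    have hpair := pair (ε := ε) hDm hGm hC1 hC3 hAs0 hm0 hs0.le
      (by have := h1 a s y c _ (by rw [← hA]; linarith) hs0 hs1' hq1 hq1' (by rw [← hA]; exact hcA)
          rwa [← hA] at this)
      (by have := h1 a s y c _ (by rw [← hA]; linarith) hs0 hs1' hq2 hq2' (by rw [← hA]; exact hcA)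
          rwa [← hA] at this)
      (hG3 (1 / 8) (by norm_num) (by norm_num))
    have hBp : 0 < (A * s) ^ (-(ε / 16)) := Real.rpow_pos_of_pos hAs0 _
    have h2p := two_pow_le (ε := ε) hAs1
    rcases le_or_gt |c| (A * s) with hcs | hcs
    · -- `|c| ≤ |a| s`
      rcases le_or_gt (20 * s) |Real.cos (2 * π * y)| with hy | hy
      · -- far from the zeros
        have hAκ : 1 ≤ A * κ := hAs1.trans (mul_le_mul_of_nonneg_left hκs hA0.le)
        have hAκ0 : 0 < A * κ := by positivity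
        have hB := two_pow_le (ε := ε) hAκ
        have hBp' : 0 < (A * κ) ^ (-(ε / 16)) := Real.rpow_pos_of_pos hAκ0 _
        have hpt : ∀ᵐ t ∂un, (ip (ε / 16) |2 + 2 * π * a * Real.cos (2 * π * (y + s * t)) - c| +
            ip ((1 + ε) / 16) |2 + 2 * π * a * Real.cos (2 * π * (y + s * t)) - c|) *
            ip (1 / 16) (|Real.cos (2 * π * (2 * (y + s * t) + a * Real.sin (2 * π * (y + s * t)) + b))| + s) ≤
            ENNReal.ofReal (2 * (A * κ) ^ (-(ε / 16))) *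
            ip (1 / 16) |Real.cos (2 * π * (2 * (y + s * t) + a * Real.sin (2 * π * (y + s * t)) + b))| := by
          unfold un
          filter_upwards [ae_restrict_mem measurableSet_Icc] with t ht
          refine mul_le_mul' ?_ (ip_anti (by norm_num) (by linarith))
          have h4 : A * κ ≤ |2 + 2 * π * a * Real.cos (2 * π * (y + s * t)) - c| := by
            rw [hA, hκ]
            refine m4 (by rw [← hA]; exact hA6) hs0 hs1 (by rw [← hA]; exact hAs1000) hy (by rw [← hA]; exact hcs) ?_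
            rw [add_sub_cancel_left, abs_of_nonneg (mul_nonneg hs0.le ht.1)]
            nlinarith [ht.2]
          refine (add_le_add (ip_anti (by positivity) h4) (ip_anti (by positivity) h4)).trans ?_
          rw [ip_pos hAκ0, ip_pos hAκ0, ← ENNReal.ofReal_add hBp'.le (Real.rpow_pos_of_pos hAκ0 _).le]
          exact ENNReal.ofReal_le_ofReal hB
        refine (lintegral_mono_ae hpt).trans ?_
        rw [lintegral_const_mul _ (ip_meas hGm.abs _)]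
        refine (mul_le_mul_right (hG3 (1 / 16) (by norm_num) (by norm_num)) _).trans ?_
        rw [← ENNReal.ofReal_mul (by positivity)]
        refine ENNReal.ofReal_le_ofReal ?_
        have e1 : (A * κ) ^ (-(ε / 16)) = A ^ (-(ε / 16)) * κ ^ (-(ε / 16)) := Real.mul_rpow hA0.le hκ0.le
        calc 2 * (A * κ) ^ (-(ε / 16)) * (C3 * m ^ (-(1 / 16 : ℝ))) =
              2 * C3 * (A ^ (-(ε / 16)) * (κ ^ (-(ε / 16)) * m ^ (-(1 / 16 : ℝ)))) := by rw [e1]; ring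
          _ ≤ 2 * C3 * (A ^ (-(ε / 16)) * (2 * κ ^ (-(1 / 16 : ℝ)))) := by gcongr
          _ = 4 * C3 * (A ^ (-(ε / 16)) * (1 * κ ^ (-(1 / 16 : ℝ)))) := by ring
          _ ≤ 84 * (C1 * C2 * C3) * (A ^ (-(ε / 16)) * (max 1 |c| ^ (1 / 16 : ℝ) * κ ^ (-(1 / 16 : ℝ)))) := by
              have : 4 * C3 ≤ 84 * (C1 * C2 * C3) := by linarith
              gcongr
      · -- near the zeros
        refine fin_le hpair ?_
        have hκ21 : κ ≤ 21 * s := by rw [hκ]; linarith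
        have e1 : (A * s) ^ (-(ε / 16)) ≤ 21 * (A ^ (-(ε / 16)) * κ ^ (-(ε / 16))) := by
          have e2 : A * κ / 21 ≤ A * s := by
            rw [div_le_iff₀ (by norm_num)]
            nlinarith
          have hAκ0 : 0 < A * κ := by positivity
          calc (A * s) ^ (-(ε / 16)) ≤ (A * κ / 21) ^ (-(ε / 16)) :=
                Real.rpow_le_rpow_of_nonpos (by positivity) e2 (by linarith)
            _ = (A ^ (-(ε / 16)) * κ ^ (-(ε / 16))) * 21 ^ (ε / 16) := by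
                rw [div_eq_mul_inv, Real.mul_rpow hAκ0.le (by norm_num), Real.mul_rpow hA0.le hκ0.le,
                  Real.inv_rpow (by norm_num), ← Real.rpow_neg (by norm_num), neg_neg]
            _ ≤ (A ^ (-(ε / 16)) * κ ^ (-(ε / 16))) * 21 := by
                refine mul_le_mul_of_nonneg_left ?_ (by positivity)
                calc (21:ℝ) ^ (ε / 16) ≤ 21 ^ (1:ℝ) := Real.rpow_le_rpow_of_exponent_le (by norm_num) (by linarith)
                  _ = 21 := Real.rpow_one 21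
            _ = _ := by ring
        calc C1 * C3 * (((A * s) ^ (-(ε / 16)) + (A * s) ^ (-((1 + ε) / 16))) * m ^ (-(1 / 16 : ℝ))) ≤
              C1 * C3 * ((2 * (21 * (A ^ (-(ε / 16)) * κ ^ (-(ε / 16))))) * m ^ (-(1 / 16 : ℝ))) := by
              refine mul_le_mul_of_nonneg_left (mul_le_mul_of_nonneg_right (h2p.trans ?_) hmp.le) hC12.le
              linarith
          _ = 42 * (C1 * C3) * (A ^ (-(ε / 16)) * (κ ^ (-(ε / 16)) * m ^ (-(1 / 16 : ℝ)))) := by ring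
          _ ≤ 42 * (C1 * C3) * (A ^ (-(ε / 16)) * (2 * κ ^ (-(1 / 16 : ℝ)))) := by gcongr
          _ = 84 * (C1 * C3) * (A ^ (-(ε / 16)) * (1 * κ ^ (-(1 / 16 : ℝ)))) := by ring
          _ ≤ 84 * (C1 * C2 * C3) * (A ^ (-(ε / 16)) * (max 1 |c| ^ (1 / 16 : ℝ) * κ ^ (-(1 / 16 : ℝ)))) := by
              gcongr
    · -- `|a| s < |c| ≤ |a|`
      refine fin_le hpair ?_
      have hBle : (A * s) ^ (-(ε / 16)) ≤ 1 := Real.rpow_le_one_of_one_le_of_nonpos hAs1 (by linarith)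
      have e1 : 1 ≤ A ^ (-(ε / 16)) * max 1 |c| ^ (1 / 16 : ℝ) := by
        have e2 : (A * s) ^ (1 / 16 : ℝ) ≤ max 1 |c| ^ (1 / 16 : ℝ) :=
          Real.rpow_le_rpow hAs0.le (hcs.le.trans (le_max_right _ _)) (by norm_num)
        have e3 : A ^ (-(ε / 16)) * (A * s) ^ (1 / 16 : ℝ) = 1 := by
          rw [hAs, ← Real.rpow_mul hA0.le, ← Real.rpow_add hA0]
          rw [show -(ε / 16) + ε * (1 / 16) = 0 by ring, Real.rpow_zero]
        exact e3.symm.le.trans (mul_le_mul_of_nonneg_left e2 hAp.le)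
      calc C1 * C3 * (((A * s) ^ (-(ε / 16)) + (A * s) ^ (-((1 + ε) / 16))) * m ^ (-(1 / 16 : ℝ))) ≤
            C1 * C3 * (2 * (2 * κ ^ (-(1 / 16 : ℝ)))) := by
            refine mul_le_mul_of_nonneg_left ?_ hC12.le
            exact mul_le_mul (h2p.trans (by linarith)) hm hmp.le (by norm_num)
        _ = 4 * (C1 * C3) * (1 * κ ^ (-(1 / 16 : ℝ))) := by ring
        _ ≤ 84 * (C1 * C2 * C3) * ((A ^ (-(ε / 16)) * max 1 |c| ^ (1 / 16 : ℝ)) * κ ^ (-(1 / 16 : ℝ))) := by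
            have : 4 * (C1 * C3) ≤ 84 * (C1 * C2 * C3) := by linarith
            gcongr
        _ = _ := by ring
  · -- `|a| < |c|`
    have hB0 : 0 < A * s ^ 2 := by positivity
    have hpair := pair (ε := ε) hDm hGm hC2 hC3 hB0 hm0 hs0.le
      (by have := h2 a s y c _ (by rw [← hA]; linarith) hs0 hs1' hq1 hq1'
          rwa [← hA] at this)
      (by have := h2 a s y c _ (by rw [← hA]; linarith) hs0 hs1' hq2 hq2'
          rwa [← hA] at this)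
      (hG3 (1 / 8) (by norm_num) (by norm_num))
    refine fin_le hpair ?_
    have h2p := two_pow_le' (ε := ε) hB0 hB2le
    have hBle : (A * s ^ 2) ^ (-((1 + ε) / 16)) ≤ A ^ ((1 - ε) / 16) := by
      rw [hB2, ← Real.rpow_mul hA0.le]
      exact Real.rpow_le_rpow_of_exponent_le hA1 (by nlinarith)
    have e1 : A ^ ((1 - ε) / 16) ≤ A ^ (-(ε / 16)) * max 1 |c| ^ (1 / 16 : ℝ) := by
      have e2 : A ^ (1 / 16 : ℝ) ≤ max 1 |c| ^ (1 / 16 : ℝ) :=
        Real.rpow_le_rpow hA0.le (hcA.le.trans (le_max_right _ _)) (by norm_num)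
      have e3 : A ^ (-(ε / 16)) * A ^ (1 / 16 : ℝ) = A ^ ((1 - ε) / 16) := by
        rw [← Real.rpow_add hA0]
        congr 1
        ring
      rw [← e3]
      exact mul_le_mul_of_nonneg_left e2 hAp.le
    have hC23 : 0 < C2 * C3 := by positivity
    calc C2 * C3 * (((A * s ^ 2) ^ (-(ε / 16)) + (A * s ^ 2) ^ (-((1 + ε) / 16))) * m ^ (-(1 / 16 : ℝ))) ≤
          C2 * C3 * ((2 * (A ^ (-(ε / 16)) * max 1 |c| ^ (1 / 16 : ℝ))) * (2 * κ ^ (-(1 / 16 : ℝ)))) := by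
          refine mul_le_mul_of_nonneg_left ?_ hC23.le
          exact mul_le_mul (h2p.trans (by linarith)) hm hmp.le (by positivity)
      _ = 4 * (C2 * C3) * (A ^ (-(ε / 16)) * (max 1 |c| ^ (1 / 16 : ℝ) * κ ^ (-(1 / 16 : ℝ)))) := by ring
      _ ≤ 84 * (C1 * C2 * C3) * (A ^ (-(ε / 16)) * (max 1 |c| ^ (1 / 16 : ℝ) * κ ^ (-(1 / 16 : ℝ)))) := by
          refine mul_le_mul_of_nonneg_right ?_ (by positivity)
          linarith

/-- **LY**: the base step, real form -/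
theorem step_ly_of
    (m1 : ∃ C : ℝ, 1 ≤ C ∧ ∀ a s y c q : ℝ, 100 ≤ |a| → 0 < s → s ≤ 1 → 0 < q → q ≤ 1 / 4 → |c| ≤ |a| →
      ∫⁻ t, ip q |2 + 2 * π * a * Real.cos (2 * π * (y + s * t)) - c| ∂un ≤ ENNReal.ofReal (C * (|a| * s) ^ (-q)))
    (m2 : ∃ C : ℝ, 1 ≤ C ∧ ∀ a s y c q : ℝ, 100 ≤ |a| → 0 < s → s ≤ 1 → 0 < q → q ≤ 1 / 4 →
      ∫⁻ t, ip q |2 + 2 * π * a * Real.cos (2 * π * (y + s * t)) - c| ∂un ≤
        ENNReal.ofReal (C * (|a| * s ^ 2) ^ (-q)))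
    (m3 : ∃ C : ℝ, 1 ≤ C ∧ ∀ a s y b q : ℝ, 1000000 ≤ |a| → 0 < s → s ≤ 1 / 1000 → 1000 ≤ |a| * s → |a| * s ^ 2 ≤ 1 →
      0 < q → q ≤ 1 / 4 →
      ∫⁻ t, ip q |Real.cos (2 * π * (2 * (y + s * t) + a * Real.sin (2 * π * (y + s * t)) + b))| ∂un ≤
        ENNReal.ofReal (C * (min 1 (|a| * s * (|Real.cos (2 * π * y)| + s))) ^ (-q)))
    (m4 : ∀ {a s y c x : ℝ}, 1000000 ≤ |a| → 0 < s → s ≤ 1 / 1000 → 1000 ≤ |a| * s →
      20 * s ≤ |Real.cos (2 * π * y)| → |c| ≤ |a| * s → |x - y| ≤ s →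
      |a| * (|Real.cos (2 * π * y)| + s) ≤ |2 + 2 * π * a * Real.cos (2 * π * x) - c|)
    {ε : ℝ} (hε : 0 < ε) (hε1 : ε ≤ 1 / 2) : ∃ C A₀ : ℝ, 1 ≤ C ∧ 1 ≤ A₀ ∧ ∀ a s y b E E' : ℝ, A₀ ≤ |a| →
    s = |a| ^ (ε - 1) →
    ∫⁻ t, lyr ε s (E * (2 + 2 * π * a * Real.cos (2 * π * (y + s * t))) - E') E
      (2 * (y + s * t) + a * Real.sin (2 * π * (y + s * t)) + b) ∂un ≤
      ENNReal.ofReal (C * |a| ^ (-(ε / 16))) * lyr ε s E E' y := by
  obtain ⟨C, A₀, hC, hA₀, h⟩ := key m1 m2 m3 m4 hε hε1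
  refine ⟨C, A₀, hC, hA₀, fun a s y b E E' ha hs => ?_⟩
  have hA0 : 0 < |a| := by linarith
  have hs0 : 0 < s := by rw [hs]; exact Real.rpow_pos_of_pos hA0 _
  have hκ0 : 0 < |Real.cos (2 * π * y)| + s := by
    have := abs_nonneg (Real.cos (2 * π * y))
    linarith
  have hAp : 0 < |a| ^ (-(ε / 16)) := Real.rpow_pos_of_pos hA0 _
  rcases eq_or_ne E 0 with hE | hE
  · rcases eq_or_ne E' 0 with hE' | hE'
    · have h0 : ∀ x : ℝ, lyr ε s 0 0 x = 0 := by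
        intro x
        unfold lyr
        rw [abs_zero, max_self, ENNReal.ofReal_zero, ENNReal.zero_rpow_of_pos (by norm_num), mul_zero, zero_mul]
      rw [hE, hE']
      simp only [zero_mul, sub_zero, h0, lintegral_zero]
      exact zero_le
    · have htop : lyr ε s E E' y = ⊤ := by
        unfold lyr ip
        rw [hE, abs_zero, ENNReal.ofReal_zero, ENNReal.zero_rpow_of_neg (by linarith), max_eq_right (abs_nonneg E')]
        have h5 : ENNReal.ofReal |E'| ^ (1 / 16 : ℝ) ≠ 0 := by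
          rw [ENNReal.ofReal_rpow_of_pos (abs_pos.2 hE')]
          exact (ENNReal.ofReal_pos.2 (Real.rpow_pos_of_pos (abs_pos.2 hE') _)).ne'
        have h6 : ENNReal.ofReal (|Real.cos (2 * π * y)| + s) ^ (-(1 / 16 : ℝ)) ≠ 0 := by
          rw [ENNReal.ofReal_rpow_of_pos hκ0]
          exact (ENNReal.ofReal_pos.2 (Real.rpow_pos_of_pos hκ0 _)).ne'
        rw [ENNReal.top_mul h5, ENNReal.top_mul h6]
      rw [htop, ENNReal.mul_top]
      · exact le_top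
      · exact (ENNReal.ofReal_pos.2 (by positivity)).ne'
  · obtain ⟨c, hc⟩ : ∃ c, E' = E * c := ⟨E' / E, by field_simp⟩
    rw [hc, lyr_old hE]
    have h1 : ∀ t : ℝ, lyr ε s (E * (2 + 2 * π * a * Real.cos (2 * π * (y + s * t))) - E * c) E
        (2 * (y + s * t) + a * Real.sin (2 * π * (y + s * t)) + b) ≤ ip (ε / 16) |E| *
        ((ip (ε / 16) |2 + 2 * π * a * Real.cos (2 * π * (y + s * t)) - c| +
        ip ((1 + ε) / 16) |2 + 2 * π * a * Real.cos (2 * π * (y + s * t)) - c|) *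
        ip (1 / 16) (|Real.cos (2 * π * (2 * (y + s * t) + a * Real.sin (2 * π * (y + s * t)) + b))| + s)) := by
      intro t
      rw [← mul_sub]
      exact lyr_new hε hE
    refine (lintegral_mono h1).trans ?_
    have hDm : Measurable fun t : ℝ => |2 + 2 * π * a * Real.cos (2 * π * (y + s * t)) - c| := by fun_prop
    have hGm : Measurable fun t : ℝ =>
        |Real.cos (2 * π * (2 * (y + s * t) + a * Real.sin (2 * π * (y + s * t)) + b))| + s := by fun_prop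
    have hmm : Measurable fun t : ℝ => (ip (ε / 16) |2 + 2 * π * a * Real.cos (2 * π * (y + s * t)) - c| +
        ip ((1 + ε) / 16) |2 + 2 * π * a * Real.cos (2 * π * (y + s * t)) - c|) *
        ip (1 / 16) (|Real.cos (2 * π * (2 * (y + s * t) + a * Real.sin (2 * π * (y + s * t)) + b))| + s) :=
      ((ip_meas hDm _).add (ip_meas hDm _)).mul (ip_meas hGm _)
    rw [lintegral_const_mul _ hmm]
    refine (mul_le_mul_right (h a s y b c ha hs) _).trans (le_of_eq ?_)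
    have hcm : 0 < max 1 |c| := lt_of_lt_of_le one_pos (le_max_left _ _)
    have h7 := Real.rpow_pos_of_pos hcm (1 / 16 : ℝ)
    rw [ip_pos hκ0, ← mul_assoc C, ENNReal.ofReal_mul (by positivity), ENNReal.ofReal_mul h7.le]
    ring

end Pool.Agent.Helper38.AG
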