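import Pool.Agent.Helper68.AG.M1
import Pool.Agent.Helper8.AG.M2
import Pool.Agent.Helper35.AG.M3
import Pool.Agent.Helper6.AG.M4
import Pool.Agent.Helper38.AG.StepLy

/-! # Project AG (MP_9ee088_an), block LY: the base step, real form -/

set_option autoImplicit false
open MeasureTheory Real Set Filter Topology
open scoped ENNReal

namespace Pool.Agent.Helper38.AG

open Pool.Agent.Helper95.AF (ip un)
open Pool.Agent.Helper95.AG

/-- **LY**: the base step, real form -/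
theorem step_ly {ε : ℝ} (hε : 0 < ε) (hε1 : ε ≤ 1 / 2) : ∃ C A₀ : ℝ, 1 ≤ C ∧ 1 ≤ A₀ ∧ ∀ a s y b E E' : ℝ, A₀ ≤ |a| →
    s = |a| ^ (ε - 1) →
    ∫⁻ t, lyr ε s (E * (2 + 2 * π * a * Real.cos (2 * π * (y + s * t))) - E') E
      (2 * (y + s * t) + a * Real.sin (2 * π * (y + s * t)) + b) ∂un ≤
      ENNReal.ofReal (C * |a| ^ (-(ε / 16))) * lyr ε s E E' y :=
  step_ly_of Pool.Agent.Helper68.AG.m1 Pool.Agent.Helper8.AG.m2 Pool.Agent.Helper35.AG.m3
    (fun ha hs hs1 has hy hc hx => Pool.Agent.Helper6.AG.m4 ha hs hs1 has hy hc hx) hε hε1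

end Pool.Agent.Helper38.AG
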